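import Mathlib

namespace Pool.Agent.Results.MP_98d06d_al.Preserve

universe u

open Set

/-- order automorphisms of a chain -/
def Aut (α : Type u) [LinearOrder α] := α ≃o α

section
variable {α : Type u} [LinearOrder α]

instance : Group (Aut α) := inferInstanceAs (Group (α ≃o α))

def Aut.e (f : Aut α) : α ≃o α := f

noncomputable instance : Lattice (Aut α) where
  le f g := ∀ x, f.e x ≤ g.e x
  le_refl _ _ := le_rfl
  le_trans _ _ _ a b x := (a x).trans (b x)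
  le_antisymm _ _ a b := RelIso.ext fun x => (a x).antisymm (b x)
  sup f g := StrictMono.orderIsoOfRightInverse (fun x => max (f.e x) (g.e x))
    (fun _ _ h => max_lt_max (f.e.strictMono h) (g.e.strictMono h))
    (fun y => min (f.e.symm y) (g.e.symm y)) fun y => by
      rcases le_total (f.e.symm y) (g.e.symm y) with h | h
      · simpa [h] using g.e.le_symm_apply.1 h
      · simpa [h] using f.e.le_symm_apply.1 h
  le_sup_left _ _ _ := le_max_left _ _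
  le_sup_right _ _ _ := le_max_right _ _
  sup_le _ _ _ a b x := max_le (a x) (b x)
  inf f g := StrictMono.orderIsoOfRightInverse (fun x => min (f.e x) (g.e x))
    (fun _ _ h => min_lt_min (f.e.strictMono h) (g.e.strictMono h))
    (fun y => max (f.e.symm y) (g.e.symm y)) fun y => by
      rcases le_total (f.e.symm y) (g.e.symm y) with h | h
      · simpa [h] using f.e.symm_apply_le.1 h
      · simpa [h] using g.e.symm_apply_le.1 h
  inf_le_left _ _ _ := min_le_left _ _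
  inf_le_right _ _ _ := min_le_right _ _
  le_inf _ _ _ a b x := le_min (a x) (b x)

instance : MulLeftMono (Aut α) := ⟨fun c _ _ h x => c.e.monotone (h x)⟩
instance : MulRightMono (Aut α) := ⟨fun c _ _ h x => h (c.e x)⟩
end

def Good (G : Type u) [Group G] [PartialOrder G] : Prop :=
  ∃ (H : Type u) (_ : Group H) (_ : Lattice H), MulLeftMono H ∧ MulRightMono H ∧ ∃ φ : G →* H,
    (∀ a b, a ≤ b ↔ φ a ≤ φ b) ∧ ∀ (S : Set G) s, IsGLB S s → IsGLB (φ '' S) (φ s)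

variable {G L : Type u} [Group G] [PartialOrder G] [MulLeftMono G] [MulRightMono G]
  [Group L] [Lattice L] [MulLeftMono L] [MulRightMono L] (φ : G →* L)

inductive Gen : L → Prop
  | of (g : G) : Gen (φ g)
  | mul {a b} : Gen a → Gen b → Gen (a * b)
  | inv {a} : Gen a → Gen a⁻¹
  | sup {a b} : Gen a → Gen b → Gen (a ⊔ b)

structure OK (K : Set L) : Prop where
  pos : ∀ j ∈ K, 1 ≤ j
  mul : ∀ j ∈ K, ∀ k ∈ K, j * k ∈ K
  conj : ∀ j ∈ K, ∀ c, c * j * c⁻¹ ∈ K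
  star : ∀ j ∈ K, ∀ g, φ g ≤ j → g ≤ 1

lemma step (hφ : ∀ a b, a ≤ b ↔ φ a ≤ φ b) (hg : ∀ c, Gen φ c) : ∃ K : Set L, OK φ K ∧ 1 ∈ K ∧
    ∀ h, 1 ≤ h → (∀ g, (∀ t, (∃ k ∈ K, h ≤ k * φ t) → g ≤ t) → g ≤ 1) → h ∈ K := by
  obtain ⟨K, h0, hK⟩ := zorn_subset_nonempty {K | OK φ K} (fun c hc hch _ => ⟨⋃₀ c, ⟨
    fun j ⟨K, a, b⟩ => (hc a).pos j b, fun j ⟨K, a, b⟩ k ⟨K', a', b'⟩ => (hch.total a a').elim
      (fun h => ⟨K', a', (hc a').mul _ (h b) _ b'⟩) fun h => ⟨K, a, (hc a).mul _ b _ (h b')⟩,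
    fun j ⟨K, a, b⟩ c => ⟨K, a, (hc a).conj j b c⟩, fun j ⟨K, a, b⟩ => (hc a).star j b⟩,
    fun _ => subset_sUnion_of_mem⟩) {1} ⟨by simp, by simp, by simp, by
      rintro _ rfl g h; exact (hφ _ _).2 (by simpa using h)⟩
  have k := hK.prop
  have k1 : (1 : L) ∈ K := h0 rfl
  let K' := {h : L | 1 ≤ h ∧ ∀ g, (∀ t, (∃ k ∈ K, h ≤ k * φ t) → g ≤ t) → g ≤ 1}
  have dn : ∀ j ∈ K', ∀ i, 1 ≤ i → i ≤ j → i ∈ K' := fun j hj i a b =>
    ⟨a, fun g hg => hj.2 g fun t ⟨k, c, d⟩ => hg t ⟨k, c, b.trans d⟩⟩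
  have ml : ∀ j ∈ K', ∀ k ∈ K', j * k ∈ K' := fun i hi j hj => ⟨one_le_mul hi.1 hj.1, fun g hg =>
    hi.2 g fun t ⟨a, a1, a2⟩ => inv_mul_le_one_iff.1 (hj.2 _ fun s ⟨b, b1, b2⟩ => inv_mul_le_iff_le_mul.2
      (hg _ ⟨_, k.mul _ a1 _ (k.conj _ b1 (φ t)), (mul_le_mul' a2 b2).trans_eq (by simp [mul_assoc])⟩))⟩
  have ps : ∀ (j c : L), 1 ≤ j → 1 ≤ c * j * c⁻¹ := fun j c h => by
    simpa using mul_le_mul_left (mul_le_mul_right h c) c⁻¹
  have cj : ∀ c, ∀ j ∈ K', c * j * c⁻¹ ∈ K' ∧ c⁻¹ * j * c⁻¹⁻¹ ∈ K' := fun c => by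
    have o : ∀ a, ∀ j ∈ K', φ a * j * (φ a)⁻¹ ∈ K' := fun a j hj => ⟨ps _ _ hj.1, fun g hg => by
      have := hj.2 (a⁻¹ * g * a) fun t ⟨b, b1, b2⟩ => by
        have := hg (a * t * a⁻¹) ⟨_, k.conj _ b1 (φ a),
          (mul_le_mul_left (mul_le_mul_right b2 _) _).trans_eq (by simp [mul_assoc])⟩
        simpa [mul_assoc] using mul_le_mul_left (mul_le_mul_right this a⁻¹) a
      simpa [mul_assoc] using mul_le_mul_left (mul_le_mul_right this a) a⁻¹⟩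
    induction hg c with
    | of a => exact fun j hj => ⟨o a j hj, by simpa using o a⁻¹ j hj⟩
    | mul _ _ ha hb => exact fun j hj => ⟨by simpa [mul_assoc] using (ha _ (hb j hj).1).1,
        by simpa [mul_assoc] using (hb _ (ha j hj).2).2⟩
    | inv _ ha => exact fun j hj => ⟨(ha j hj).2, by simpa using (ha j hj).1⟩
    | @sup a b _ _ ha hb =>
      intro j hj
      have sp : ∀ x y : L, 1 ≤ x → 1 ≤ y → x ⊔ y ≤ x * y := fun x y p q =>
        sup_le (le_mul_of_one_le_right' q) (le_mul_of_one_le_left' p)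
      refine ⟨dn _ (ml _ (ha j hj).1 _ (hb j hj).1) _ (ps _ _ hj.1) (le_trans ?_
        (sp _ _ (ps _ _ hj.1) (ps _ _ hj.1))), dn _ (ml _ (ha j hj).2 _ (hb j hj).2) _ (ps _ _ hj.1)
          (le_trans ?_ (sp _ _ (ps _ _ hj.1) (ps _ _ hj.1)))⟩
      · rw [sup_mul, sup_mul]
        exact sup_le_sup (mul_le_mul_right (inv_le_inv_iff.2 le_sup_left) _)
          (mul_le_mul_right (inv_le_inv_iff.2 le_sup_right) _)
      · rw [inv_inv, inv_inv, inv_inv, mul_sup]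
        exact sup_le_sup (mul_le_mul_left (mul_le_mul_left (inv_le_inv_iff.2 le_sup_left) _) _)
          (mul_le_mul_left (mul_le_mul_left (inv_le_inv_iff.2 le_sup_right) _) _)
  refine ⟨K, k, k1, fun h a b => hK.le_of_ge (y := K') ⟨fun _ h => h.1, ml, fun j hj c => (cj c j hj).1,
    fun j hj g hg => hj.2 g fun t ⟨c, c1, c2⟩ => mul_inv_le_one_iff.1 (k.star c c1 _ ?_)⟩
      (fun j hj => ⟨k.pos j hj, fun g hg => hg 1 ⟨j, hj, by simp⟩⟩) ⟨a, b⟩⟩
  rw [map_mul, map_inv]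
  exact mul_inv_le_iff_le_mul.2 (hg.trans c2)

lemma quot (hφ : ∀ a b, a ≤ b ↔ φ a ≤ φ b) (hg : ∀ c, Gen φ c) : Good G := by
  obtain ⟨K, k, k1, hK⟩ := step φ hφ hg
  let r : L → L → Prop := fun a b => ∃ j ∈ K, a ≤ j * b
  have rl : ∀ {a b}, a ≤ b → r a b := fun h => ⟨1, k1, by simpa using h⟩
  have rt : ∀ {a b c}, r a b → r b c → r a c := fun ⟨i, a, b⟩ ⟨j, c, d⟩ =>
    ⟨_, k.mul _ a _ c, b.trans ((mul_le_mul_right d _).trans_eq (mul_assoc _ _ _).symm)⟩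
  have rm : ∀ {a b c d}, r a b → r c d → r (a * c) (b * d) := fun {a b c d} ⟨i, p, q⟩ ⟨j, s, t⟩ =>
    ⟨_, k.mul _ p _ (k.conj _ s b), (mul_le_mul' q t).trans_eq (by simp [mul_assoc])⟩
  have rs : ∀ {a b c}, r a c → r b c → r (a ⊔ b) c := fun ⟨i, p, q⟩ ⟨j, s, t⟩ => ⟨_, k.mul _ p _ s, sup_le
    (q.trans (mul_le_mul_left (le_mul_of_one_le_right' (k.pos _ s)) _))
    (t.trans (mul_le_mul_left (le_mul_of_one_le_left' (k.pos _ p)) _))⟩
  have ri : ∀ {a b c}, r a b → r a c → r a (b ⊓ c) := fun ⟨i, p, q⟩ ⟨j, s, t⟩ => ⟨_, k.mul _ p _ s, by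
    rw [mul_inf]
    exact le_inf (q.trans (mul_le_mul_left (le_mul_of_one_le_right' (k.pos _ s)) _))
      (t.trans (mul_le_mul_left (le_mul_of_one_le_left' (k.pos _ p)) _))⟩
  let C : Con L :=
    { r a b := r a b ∧ r b a
      iseqv := ⟨fun _ => ⟨rl le_rfl, rl le_rfl⟩, And.symm, fun a b => ⟨rt a.1 b.1, rt b.2 a.2⟩⟩
      mul' a b := ⟨rm a.1 b.1, rm a.2 b.2⟩ }
  have o : ∀ a : L, C (Quotient.out (a : C.Quotient)) a := fun a => C.eq.1 (Quotient.out_eq _)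
  have oe : ∀ x : C.Quotient, ((Quotient.out x : L) : C.Quotient) = x := Quotient.out_eq
  let I : Lattice C.Quotient :=
    { le x y := r x.out y.out
      le_refl _ := rl le_rfl
      le_trans _ _ _ := rt
      le_antisymm x y a b := by rw [← oe x, ← oe y]; exact C.eq.2 ⟨a, b⟩
      sup x y := (x.out ⊔ y.out : L)
      le_sup_left _ _ := rt (rl le_sup_left) (o _).2
      le_sup_right _ _ := rt (rl le_sup_right) (o _).2
      sup_le _ _ _ a b := rt (o _).1 (rs a b)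
      inf x y := (x.out ⊓ y.out : L)
      inf_le_left _ _ := rt (o _).1 (rl inf_le_left)
      inf_le_right _ _ := rt (o _).1 (rl inf_le_right)
      le_inf _ _ _ a b := rt (ri a b) (o _).2 }
  have e : ∀ a b : L, (a : C.Quotient) ≤ b ↔ r a b := fun a b =>
    ⟨fun h => rt (o a).2 (rt h (o b).1), fun h => rt (o a).1 (rt h (o b).2)⟩
  have f : ∀ a b, r (φ a) (φ b) → a ≤ b := fun a b ⟨c, c1, c2⟩ => mul_inv_le_one_iff.1 (k.star c c1 _ (by
    rw [map_mul, map_inv]; exact mul_inv_le_iff_le_mul.2 c2))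
  refine ⟨C.Quotient, inferInstance, I, ⟨fun c a b h => ?_⟩, ⟨fun c a b h => ?_⟩, C.mk'.comp φ,
    fun a b => ⟨fun h => (e _ _).2 (rl ((hφ _ _).1 h)), fun h => f _ _ ((e _ _).1 h)⟩, fun S s hs =>
    ⟨forall_mem_image.2 fun t ht => (e _ _).2 (rl ((hφ _ _).1 (hs.1 ht))), fun c hc => ?_⟩⟩
  · rw [← oe a, ← oe b, ← oe c]; exact (e _ _).2 (rm (rl le_rfl) h)
  · rw [← oe a, ← oe b, ← oe c]; exact (e _ _).2 (rm h (rl le_rfl))
  · rw [← oe c]
    refine (e _ _).2 ⟨c.out * (φ s)⁻¹ ⊔ 1, hK _ le_sup_right fun g hg => ?_,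
      mul_inv_le_iff_le_mul.1 le_sup_left⟩
    refine (mul_le_iff_le_one_left' (b := s)).1 (hs.2 fun t ht => le_mul_inv_iff_mul_le.1 (hg _ (rs ?_ (rl ?_))))
    · rw [map_mul, map_inv]
      exact rm ((e _ _).1 ((oe c).symm ▸ hc (mem_image_of_mem _ ht))) (rl le_rfl)
    · rw [← φ.map_one, ← hφ]; exact le_mul_inv_iff_mul_le.2 (by simpa using hs.1 ht)

lemma gen (hφ : ∀ a b, a ≤ b ↔ φ a ≤ φ b) : Good G := by
  let S : Subgroup L := ⟨⟨⟨{c | Gen φ c}, Gen.mul⟩, φ.map_one ▸ Gen.of 1⟩, Gen.inv⟩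
  let I : Lattice S := Subtype.lattice (fun _ _ => Gen.sup) fun a b p q => by
    have := (p.inv.sup q.inv).inv
    rwa [inv_sup, inv_inv, inv_inv] at this
  have : MulLeftMono S := ⟨fun c a b h => mul_le_mul_right (show a.1 ≤ b.1 from h) c.1⟩
  have : MulRightMono S := ⟨fun c a b h => mul_le_mul_left (show a.1 ≤ b.1 from h) c.1⟩
  refine quot (φ.codRestrict S Gen.of) hφ fun ⟨c, h⟩ => ?_
  induction h with
  | of g => exact .of g
  | mul _ _ a b => exact a.mul b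
  | inv _ a => exact a.inv
  | sup _ _ a b => exact a.sup b

def Ch (_ : G → G → Prop) := G

theorem result (G : Type u) [Group G] [PartialOrder G] [MulLeftMono G] [MulRightMono G]
    (R : Set (G → G → Prop))
    (hR : ∀ r ∈ R, IsLinearOrder G r ∧ ∀ a b c, r a b → r (a * c) (b * c))
    (hle : ∀ a b : G, a ≤ b ↔ ∀ r ∈ R, r a b) :
    ∃ (H : Type u) (_ : Group H) (_ : Lattice H), MulLeftMono H ∧ MulRightMono H ∧ ∃ φ : G →* H,
      Function.Injective φ ∧ (∀ a b, a ≤ b ↔ φ a ≤ φ b) ∧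
      (∀ (S : Set G) s, IsLUB S s → IsLUB (φ '' S) (φ s)) ∧
      ∀ (S : Set G) s, IsGLB S s → IsGLB (φ '' S) (φ s) := by
  classical
  let I : ∀ r : R, LinearOrder (Ch r.1) := fun r =>
    have := (hR r.1 r.2).1
    { le a b := r.1 b a
      le_refl := refl_of r.1
      le_trans _ _ _ a b := trans_of r.1 b a
      le_antisymm _ _ a b := antisymm_of r.1 b a
      le_total a b := total_of r.1 b a
      toDecidableLE := inferInstance }
  have : MulLeftMono (∀ r : R, Aut (Ch r.1)) := ⟨fun c _ _ h r => mul_le_mul_right (h r) (c r)⟩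
  have : MulRightMono (∀ r : R, Aut (Ch r.1)) := ⟨fun c _ _ h r => mul_le_mul_left (h r) (c r)⟩
  let φ : G →* ∀ r : R, Aut (Ch r.1) := MonoidHom.mk' (fun g r => ⟨(Equiv.mulRight g⁻¹ : G ≃ G), fun {a b : G} =>
    ⟨fun h => show r.1 b a by simpa using (hR r.1 r.2).2 (b * g⁻¹) (a * g⁻¹) g h, (hR r.1 r.2).2 _ _ _⟩⟩) fun a b =>
      funext fun r => RelIso.ext fun x : G => show x * (a * b)⁻¹ = x * b⁻¹ * a⁻¹ by group
  obtain ⟨H, _, _, h1, h2, ψ, h3, h4⟩ := gen φ fun a b => ⟨fun h (r : R) (x : G) =>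
    (hle _ _).1 (mul_le_mul_right (inv_le_inv_iff.2 h) x) r.1 r.2, fun h => inv_le_inv_iff.1
      ((hle _ _).2 fun r hr => by simpa using show r (1 * b⁻¹) (1 * a⁻¹) from h ⟨r, hr⟩ (1 : G))⟩
  refine ⟨H, _, _, h1, h2, ψ, fun a b h => ((h3 _ _).2 h.le).antisymm ((h3 _ _).2 h.ge), h3,
    fun S s hs => ⟨forall_mem_image.2 fun t ht => (h3 _ _).1 (hs.1 ht), fun c hc => ?_⟩, h4⟩
  refine inv_le_inv_iff.1 (map_inv ψ s ▸ (h4 S⁻¹ s⁻¹ ⟨fun t ht => inv_le'.1 (hs.1 ht), fun t ht =>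
    le_inv'.1 (hs.2 fun a ha => le_inv'.1 (ht (inv_mem_inv.2 ha)))⟩).2 (forall_mem_image.2 fun t ht => ?_))
  exact inv_le'.1 (map_inv ψ t ▸ hc (mem_image_of_mem _ ht))

end Pool.Agent.Results.MP_98d06d_al.Preserve
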